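import Pool.Agent.Y770.EL.Stm

/-! Job EL-DOM: the solid of revolution (helper901). -/

set_option autoImplicit false

open MeasureTheory Set Metric Filter Topology
open scoped ContDiff

namespace Pool.Agent.Y901.EL

open Pool.Agent.Y770.EL

variable {k : ℕ}

/-- cylindrical coordinates -/
noncomputable def Phi (x y : ℝ) (e : EuclideanSpace ℝ (Fin k)) : EuclideanSpace ℝ (Fin (k + 1)) :=
  WithLp.toLp 2 (Fin.cons x fun i => √(y + 2) * e i)

theorem Phi_zero (x y : ℝ) (e : EuclideanSpace ℝ (Fin k)) : Phi x y e 0 = x := rfl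

theorem Phi_succ (x y : ℝ) (e : EuclideanSpace ℝ (Fin k)) (i : Fin k) :
    Phi x y e i.succ = √(y + 2) * e i := rfl

theorem sum_sphere {n : ℕ} {e : EuclideanSpace ℝ (Fin n)} :
    e ∈ sphere (0 : EuclideanSpace ℝ (Fin n)) 1 ↔ ∑ i, e i ^ 2 = 1 := by
  rw [mem_sphere_zero_iff_norm]
  have h := EuclideanSpace.norm_sq_eq e
  simp only [Real.norm_eq_abs, sq_abs] at h
  rw [← h]
  constructor
  · intro h1
    rw [h1]; norm_num
  · intro h1
    have h2 := norm_nonneg e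
    nlinarith

theorem yv_Phi {x y : ℝ} (hy : -2 ≤ y) {e : EuclideanSpace ℝ (Fin k)}
    (he : e ∈ sphere (0 : EuclideanSpace ℝ (Fin k)) 1) : yv (Phi x y e) = y := by
  unfold yv
  simp only [Phi_succ, mul_pow, Real.sq_sqrt (by linarith : (0 : ℝ) ≤ y + 2)]
  rw [← Finset.mul_sum, sum_sphere.1 he]
  ring

theorem Phi_cont : Continuous fun p : (ℝ × ℝ) × EuclideanSpace ℝ (Fin k) =>
    Phi p.1.1 p.1.2 p.2 := by
  unfold Phi
  refine (PiLp.continuous_toLp 2 _).comp (continuous_pi fun i => ?_)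
  refine Fin.cases ?_ (fun i => ?_) i
  · show Continuous fun p : (ℝ × ℝ) × EuclideanSpace ℝ (Fin k) => p.1.1
    fun_prop
  · show Continuous fun p : (ℝ × ℝ) × EuclideanSpace ℝ (Fin k) => √(p.1.2 + 2) * p.2 i
    fun_prop

theorem exists_Phi {X : EuclideanSpace ℝ (Fin (k + 1))} (h : -2 < yv X) :
    ∃ e ∈ sphere (0 : EuclideanSpace ℝ (Fin k)) 1, Phi (X 0) (yv X) e = X := by
  have h2 : 0 < yv X + 2 := by linarith
  have h3 : 0 < √(yv X + 2) := Real.sqrt_pos.2 h2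
  refine ⟨WithLp.toLp 2 fun i => X i.succ / √(yv X + 2), ?_, ?_⟩
  · rw [sum_sphere]
    have h4 : ∑ i : Fin k, X i.succ ^ 2 = yv X + 2 := by unfold yv; ring
    simp only [div_pow, Real.sq_sqrt h2.le]
    rw [← Finset.sum_div, h4, div_self h2.ne']
  · ext i
    refine Fin.cases ?_ (fun i => ?_) i
    · rfl
    · rw [Phi_succ]
      show √(yv X + 2) * (X i.succ / √(yv X + 2)) = X i.succ
      field_simp

theorem yv_cont : Continuous fun X : EuclideanSpace ℝ (Fin (k + 1)) => yv X := by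
  unfold yv
  fun_prop

theorem F_cont : Continuous fun X : EuclideanSpace ℝ (Fin (k + 1)) => X 0 ^ 2 + yv X ^ 2 := by
  have := yv_cont (k := k)
  fun_prop

/-- a part of the plane inside the closed unit disc, rotated about the axis -/
theorem image_eq (S : Set ℝ) (hS : ∀ s ∈ S, s ≤ 1) :
    {X : EuclideanSpace ℝ (Fin (k + 1)) | X 0 ^ 2 + yv X ^ 2 ∈ S} =
      (fun p : (ℝ × ℝ) × EuclideanSpace ℝ (Fin k) => Phi p.1.1 p.1.2 p.2) ''
        ({p : ℝ × ℝ | p.1 ^ 2 + p.2 ^ 2 ∈ S} ×ˢ sphere (0 : EuclideanSpace ℝ (Fin k)) 1) := by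
  ext X
  constructor
  · intro hX
    have h1 : X 0 ^ 2 + yv X ^ 2 ≤ 1 := hS _ hX
    have h2 : -2 < yv X := by nlinarith [sq_nonneg (X 0)]
    obtain ⟨e, he, heX⟩ := exists_Phi h2
    exact ⟨((X 0, yv X), e), ⟨hX, he⟩, heX⟩
  · rintro ⟨⟨⟨x, y⟩, e⟩, ⟨h1, h2⟩, rfl⟩
    have h1' : x ^ 2 + y ^ 2 ∈ S := h1
    have h3 : x ^ 2 + y ^ 2 ≤ 1 := hS _ h1'
    have h4 : -2 ≤ y := by nlinarith [sq_nonneg x]
    show Phi x y e 0 ^ 2 + yv (Phi x y e) ^ 2 ∈ S
    rw [Phi_zero, yv_Phi h4 h2]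
    exact h1'

theorem sphere_conn {n : ℕ} (hn : 2 ≤ n) :
    IsConnected (sphere (0 : EuclideanSpace ℝ (Fin n)) 1) := by
  refine isConnected_sphere ?_ 0 zero_le_one
  rw [← Module.finrank_eq_rank, finrank_euclideanSpace_fin]
  exact_mod_cast hn

theorem disc_conn : IsConnected {p : ℝ × ℝ | p.1 ^ 2 + p.2 ^ 2 ∈ Iio (1 : ℝ)} := by
  have hc : Convex ℝ {p : ℝ × ℝ | p.1 ^ 2 + p.2 ^ 2 ∈ Iio (1 : ℝ)} := by
    rintro ⟨x1, x2⟩ hx ⟨y1, y2⟩ hy a b ha hb hab
    simp only [mem_ofPred_eq, mem_Iio, Prod.smul_mk, Prod.mk_add_mk, smul_eq_mul] at hx hy ⊢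
    obtain rfl : b = 1 - a := by linarith
    have h1 : 0 ≤ a * (1 - a) * ((x1 - y1) ^ 2 + (x2 - y2) ^ 2) := by positivity
    have h2 : (a * x1 + (1 - a) * y1) ^ 2 + (a * x2 + (1 - a) * y2) ^ 2 =
        a * (x1 ^ 2 + x2 ^ 2) + (1 - a) * (y1 ^ 2 + y2 ^ 2) -
          a * (1 - a) * ((x1 - y1) ^ 2 + (x2 - y2) ^ 2) := by ring
    rw [h2]
    rcases eq_or_lt_of_le ha with h3 | h3
    · subst h3
      linarith
    · nlinarith
  exact (hc.isPathConnected ⟨(0, 0), by simp⟩).isConnected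

theorem circle_conn : IsConnected {p : ℝ × ℝ | p.1 ^ 2 + p.2 ^ 2 ∈ ({1} : Set ℝ)} := by
  have h : {p : ℝ × ℝ | p.1 ^ 2 + p.2 ^ 2 ∈ ({1} : Set ℝ)} =
      (fun e : EuclideanSpace ℝ (Fin 2) => (e 0, e 1)) '' sphere 0 1 := by
    ext ⟨x, y⟩
    constructor
    · intro h
      refine ⟨WithLp.toLp 2 ![x, y], ?_, rfl⟩
      rw [sum_sphere, Fin.sum_univ_two]
      exact h
    · rintro ⟨e, he, heq⟩
      rw [sum_sphere, Fin.sum_univ_two] at he
      obtain ⟨rfl, rfl⟩ := Prod.ext_iff.1 heq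
      exact he
  rw [h]
  refine (sphere_conn le_rfl).image _ (Continuous.continuousOn ?_)
  fun_prop

theorem conn_of (hk : 2 ≤ k) (S : Set ℝ) (hS : ∀ s ∈ S, s ≤ 1)
    (h : IsConnected {p : ℝ × ℝ | p.1 ^ 2 + p.2 ^ 2 ∈ S}) :
    IsConnected {X : EuclideanSpace ℝ (Fin (k + 1)) | X 0 ^ 2 + yv X ^ 2 ∈ S} := by
  rw [image_eq S hS]
  exact (h.prod (sphere_conn hk)).image _ Phi_cont.continuousOn

theorem closure_Dn : closure (Dn k) = {X | X 0 ^ 2 + yv X ^ 2 ≤ 1} := by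
  refine Subset.antisymm ?_ ?_
  · refine closure_minimal (fun X hX => (le_of_lt (show X 0 ^ 2 + yv X ^ 2 < 1 from hX) : X 0 ^ 2 + yv X ^ 2 ≤ 1)) (isClosed_le F_cont continuous_const)
  · intro X hX
    have h1 : X 0 ^ 2 + yv X ^ 2 ≤ 1 := hX
    have h2 : -2 < yv X := by nlinarith [sq_nonneg (X 0)]
    have h2' : -1 ≤ yv X := by nlinarith [sq_nonneg (X 0)]
    obtain ⟨e, he, heX⟩ := exists_Phi h2
    have hcont : Continuous fun r : ℝ => Phi (r * X 0) (r * yv X) e :=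
      Phi_cont.comp (f := fun r : ℝ => ((r * X 0, r * yv X), e)) (by fun_prop)
    have ht : Tendsto (fun r : ℝ => Phi (r * X 0) (r * yv X) e) (𝓝[<] 1) (𝓝 X) := by
      have h3 := (hcont.tendsto 1).mono_left (nhdsWithin_le_nhds (s := Iio 1))
      rwa [one_mul, one_mul, heX] at h3
    refine mem_closure_of_tendsto ht ?_
    have h4 : ∀ᶠ r : ℝ in 𝓝[<] 1, r ∈ Ioo (0 : ℝ) 1 := Ioo_mem_nhdsLT zero_lt_one
    filter_upwards [h4] with r hr
    show Phi (r * X 0) (r * yv X) e 0 ^ 2 + yv (Phi (r * X 0) (r * yv X) e) ^ 2 < 1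
    rw [Phi_zero, yv_Phi (by nlinarith [hr.1, hr.2]) he]
    have h5 : (r * X 0) ^ 2 + (r * yv X) ^ 2 = r ^ 2 * (X 0 ^ 2 + yv X ^ 2) := by ring
    rw [h5]
    have h6 : r ^ 2 < 1 := by nlinarith [hr.1, hr.2]
    have h7 : r ^ 2 * (X 0 ^ 2 + yv X ^ 2) ≤ r ^ 2 * 1 := mul_le_mul_of_nonneg_left h1 (sq_nonneg r)
    linarith

theorem grad {X : EuclideanSpace ℝ (Fin (k + 1))} (hX : X 0 ^ 2 + yv X ^ 2 = 1)
    (hd : DifferentiableAt ℝ
      (fun X : EuclideanSpace ℝ (Fin (k + 1)) => X 0 ^ 2 + yv X ^ 2 - 1) X) :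
    fderiv ℝ (fun X : EuclideanSpace ℝ (Fin (k + 1)) => X 0 ^ 2 + yv X ^ 2 - 1) X ≠ 0 := by
  intro h0
  set f := fun X : EuclideanSpace ℝ (Fin (k + 1)) => X 0 ^ 2 + yv X ^ 2 - 1 with hf
  have hfd : HasFDerivAt f (0 : EuclideanSpace ℝ (Fin (k + 1)) →L[ℝ] ℝ) X := by
    rw [← h0]
    exact hd.hasFDerivAt
  have hline : ∀ v : EuclideanSpace ℝ (Fin (k + 1)),
      HasDerivAt (fun t : ℝ => f (X + t • v)) 0 0 := by
    intro v
    have h1 : HasDerivAt (fun t : ℝ => X + t • v) v 0 := by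
      have h2 := ((hasDerivAt_id (0 : ℝ)).smul_const v).const_add X
      rwa [one_smul] at h2
    have h3 : HasFDerivAt f (0 : EuclideanSpace ℝ (Fin (k + 1)) →L[ℝ] ℝ) (X + (0 : ℝ) • v) := by
      rwa [zero_smul, add_zero]
    exact h3.comp_hasDerivAt (0 : ℝ) h1
  have hX0 : X 0 = 0 := by
    have h1 := hline (EuclideanSpace.single 0 1)
    have h2 : (fun t : ℝ => f (X + t • EuclideanSpace.single 0 1)) =
        fun t : ℝ => (X 0 + t) ^ 2 + yv X ^ 2 - 1 := by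
      funext t
      have h3 : yv (X + t • EuclideanSpace.single 0 1) = yv X := by
        unfold yv
        congr 1
        refine Finset.sum_congr rfl fun i _ => ?_
        simp [Fin.succ_ne_zero]
      simp only [hf]
      rw [h3]
      simp
    rw [h2] at h1
    have h4 : HasDerivAt (fun t : ℝ => (X 0 + t) ^ 2 + yv X ^ 2 - 1) (2 * X 0) 0 := by
      have h5 := ((((hasDerivAt_id (0 : ℝ)).const_add (X 0)).pow 2).add_const (yv X ^ 2)).sub_const 1
      simpa using h5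
    have := h1.unique h4
    linarith
  have h1 := hline X
  have h2 : (fun t : ℝ => f (X + t • X)) =
      fun t : ℝ => ((1 + t) ^ 2 * (yv X + 2) - 2) ^ 2 - 1 := by
    funext t
    have h3 : yv (X + t • X) = (1 + t) ^ 2 * (yv X + 2) - 2 := by
      unfold yv
      rw [sub_add_cancel, Finset.mul_sum]
      congr 1
      refine Finset.sum_congr rfl fun i _ => ?_
      simp
      ring
    simp only [hf]
    rw [h3]
    simp [hX0]
  rw [h2] at h1
  have h4 : HasDerivAt (fun t : ℝ => ((1 + t) ^ 2 * (yv X + 2) - 2) ^ 2 - 1)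
      (4 * yv X * (yv X + 2)) 0 := by
    have h5 := (((((((hasDerivAt_id (0 : ℝ)).const_add 1).pow 2).mul_const (yv X + 2)).sub_const
      2).pow 2).sub_const 1)
    refine HasDerivAt.congr_deriv (f := fun t : ℝ => ((1 + t) ^ 2 * (yv X + 2) - 2) ^ 2 - 1) h5 ?_
    simp
    ring
  have h6 := h1.unique h4
  rw [hX0] at hX
  nlinarith

theorem t_DOM : S_DOM := by
  intro k hk
  have hsm : ContDiff ℝ ∞ (fun X : EuclideanSpace ℝ (Fin (k + 1)) => X 0 ^ 2 + yv X ^ 2 - 1) := by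
    unfold yv
    fun_prop
  have hopen : IsOpen (Dn k) := isOpen_lt F_cont continuous_const
  have hfr : frontier (Dn k) = {X | X 0 ^ 2 + yv X ^ 2 = 1} := by
    rw [hopen.frontier_eq, closure_Dn]
    ext X
    constructor
    · rintro ⟨h1, h2⟩
      exact le_antisymm h1 (not_lt.1 h2)
    · intro h
      have h' : X 0 ^ 2 + yv X ^ 2 = 1 := h
      exact ⟨h'.le, fun h2 => absurd (show X 0 ^ 2 + yv X ^ 2 < 1 from h2) (not_lt.2 h'.ge)⟩
  refine ⟨hopen, ?_, ?_, hfr, closure_Dn, ?_, hsm, fun X hX =>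
    grad hX (hsm.differentiable (by simp) X)⟩
  · exact conn_of hk (Iio 1) (fun s hs => le_of_lt hs) disc_conn
  · rw [isBounded_iff_forall_norm_le]
    refine ⟨2, fun X hX => ?_⟩
    have h1 : X 0 ^ 2 + yv X ^ 2 < 1 := hX
    have h2 := EuclideanSpace.norm_sq_eq X
    simp only [Real.norm_eq_abs, sq_abs] at h2
    rw [Fin.sum_univ_succ] at h2
    have h3 : ∑ i : Fin k, X i.succ ^ 2 = yv X + 2 := by unfold yv; ring
    rw [h3] at h2
    have h4 : ‖X‖ ^ 2 ≤ 2 ^ 2 := by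
      rw [h2]
      nlinarith [sq_nonneg (X 0), sq_nonneg (yv X - 1)]
    exact abs_le_of_sq_le_sq' h4 (by norm_num) |>.2
  · rw [hfr]
    exact conn_of hk {1} (fun s hs => le_of_eq hs) circle_conn

end Pool.Agent.Y901.EL
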