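import Pool.Agent.Y34.EL.Stm

/-! Project EL, job FAR: Ballmann's lemma. -/

set_option autoImplicit false

universe u

open Metric Set Filter Topology
open Pool.Agent.TH60.FP Pool.Agent.Y34.HB Pool.Agent.Y34.EL

namespace Pool.Agent.Y901.EL

section

variable {X : Type u} [MetricSpace X]

theorem on_sub {o p b a : X} {s t : ℝ} (h1 : On o p t b) (h2 : On o b s a) : On o p s a := by
  obtain ⟨h3, h4⟩ := h1
  obtain ⟨h5, h6⟩ := h2
  refine ⟨h5, ?_⟩
  have t1 := dist_triangle a b p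
  have t2 := dist_triangle o a p
  linarith

theorem on_symm {o p y : X} {t : ℝ} (h : On o p t y) : On p o (dist o p - t) y := by
  obtain ⟨h1, h2⟩ := h
  refine ⟨by rw [dist_comm, h2], ?_⟩
  rw [dist_comm y o, dist_comm p o, h1]
  ring

theorem on_nonneg {o p y : X} {t : ℝ} (h : On o p t y) : 0 ≤ t := by
  rw [← h.1]
  exact dist_nonneg

theorem on_le {o p y : X} {t : ℝ} (h : On o p t y) : t ≤ dist o p := by
  have h1 := h.2
  have : 0 ≤ dist y p := dist_nonneg
  linarith

/-- segments -/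
def Sg (p q : X) : Set X := {m | dist p m + dist m q = dist p q}

theorem sg_on {p q m : X} (h : m ∈ Sg p q) : On p q (dist p m) m :=
  ⟨rfl, by have : dist p m + dist m q = dist p q := h; linarith⟩

theorem on_sg {p q m : X} {t : ℝ} (h : On p q t m) : m ∈ Sg p q := by
  obtain ⟨h1, h2⟩ := h
  show dist p m + dist m q = dist p q
  linarith

theorem left_sg (p q : X) : p ∈ Sg p q := by
  show dist p p + dist p q = dist p q
  rw [dist_self, zero_add]

variable [ProperSpace X]

theorem sg_compact (p q : X) : IsCompact (Sg p q) := by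
  refine (isCompact_closedBall p (dist p q)).of_isClosed_subset ?_ ?_
  · exact isClosed_eq (by fun_prop) continuous_const
  · intro m hm
    have h1 : dist p m + dist m q = dist p q := hm
    have h2 : 0 ≤ dist m q := dist_nonneg
    rw [mem_closedBall, dist_comm]
    linarith

theorem on_dist (hS : S_STEW.{u}) (hX : CN X) {o p a b : X} {s t : ℝ} (ha : On o p s a)
    (hb : On o p t b) : dist a b = |s - t| := by
  have hD : 0 ≤ dist o p := dist_nonneg
  rcases hD.eq_or_lt with h0 | h0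
  · have e1 := on_nonneg ha
    have e2 := on_le ha
    have e3 := on_nonneg hb
    have e4 := on_le hb
    have hs : s = 0 := by linarith
    have ht : t = 0 := by linarith
    obtain ⟨h1, _⟩ := ha
    obtain ⟨h2, _⟩ := hb
    rw [hs] at h1
    rw [ht] at h2
    rw [← dist_eq_zero.1 h1, ← dist_eq_zero.1 h2, hs, ht]
    simp
  · have h1 := (hS X hX).2.2 o p t b hb a
    rw [dist_comm a o, ha.1, ha.2] at h1
    have h2 : dist o p * dist a b ^ 2 ≤ dist o p * (s - t) ^ 2 := by
      refine h1.trans (le_of_eq ?_)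
      ring
    have h3 : dist a b ^ 2 ≤ (s - t) ^ 2 := le_of_mul_le_mul_left h2 h0
    have h4 : dist a b ≤ |s - t| := by
      rw [← abs_of_nonneg (dist_nonneg (x := a) (y := b))]
      exact sq_le_sq.1 h3
    refine le_antisymm h4 ?_
    have t1 := dist_triangle o a b
    have t2 := dist_triangle o b a
    rw [ha.1, hb.1] at t1
    rw [ha.1, hb.1, dist_comm b a] at t2
    rw [abs_le]
    constructor <;> linarith

theorem on_restrict (hS : S_STEW.{u}) (hX : CN X) {o p a b : X} {s t : ℝ} (ha : On o p s a)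
    (hb : On o p t b) (hst : s ≤ t) : On o b s a := by
  refine ⟨ha.1, ?_⟩
  rw [on_dist hS hX ha hb, hb.1, abs_of_nonpos (by linarith)]
  ring

theorem seg_close (hS : S_STEW.{u}) (hC : S_CMP.{u}) (hX : CN X) {p q p' q' m : X} {ε : ℝ}
    (hp : dist p p' ≤ ε) (hq : dist q q' ≤ ε) (hm : m ∈ Sg p q) :
    ∃ m' ∈ Sg p' q', dist m m' ≤ ε := by
  have hmm : dist p m + dist m q = dist p q := hm
  have n1 : 0 ≤ dist p m := dist_nonneg
  have n2 : 0 ≤ dist m q := dist_nonneg
  obtain ⟨l, hl0, hl1, hl⟩ : ∃ l : ℝ, 0 ≤ l ∧ l ≤ 1 ∧ l * dist p q = dist p m := by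
    rcases (dist_nonneg (x := p) (y := q)).eq_or_lt with h0 | h0
    · refine ⟨0, le_rfl, zero_le_one, ?_⟩
      rw [zero_mul]
      linarith
    · refine ⟨dist p m / dist p q, by positivity, ?_, ?_⟩
      · rw [div_le_one h0]
        linarith
      · field_simp
  have hd : 0 ≤ dist p' q' := dist_nonneg
  obtain ⟨m', hm'⟩ := (hS X hX).1 p' q' (l * dist p' q') (by positivity)
    (by nlinarith)
  refine ⟨m', on_sg hm', ?_⟩
  have h1 := (hC X hX).2 p q p' q' l m m' (by rw [hl]; exact sg_on hm) hm' hl0 hl1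
  refine h1.trans ?_
  nlinarith

theorem inf_close (hS : S_STEW.{u}) (hC : S_CMP.{u}) (hX : CN X) (o : X) {p q p' q' : X} {ε : ℝ}
    (hp : dist p p' ≤ ε) (hq : dist q q' ≤ ε) :
    infDist o (Sg p' q') ≤ infDist o (Sg p q) + ε := by
  rw [← sub_le_iff_le_add, le_infDist ⟨p, left_sg p q⟩]
  intro m hm
  obtain ⟨m', hm', hd⟩ := seg_close hS hC hX hp hq hm
  have h1 := infDist_le_dist_of_mem (x := o) hm'
  have h2 := dist_triangle o m m'
  linarith

/-- a segment at distance exactly `R` -/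
theorem exact_seg (hS : S_STEW.{u}) (hC : S_CMP.{u}) (hX : CN X) (σ : ℝ → X) (hσ : Isometry σ)
    (R : ℝ) (hR : 1 < R) (n : ℕ) (_hn : 0 < n) (p q : X) (hp : (n : ℝ) ≤ dist (σ 0) p)
    (hq : (n : ℝ) ≤ dist (σ 0) q)
    (hpn : ∀ y, On (σ 0) p n y → dist y (σ (-n)) ≤ 1)
    (hqn : ∀ y, On (σ 0) q n y → dist y (σ n) ≤ 1)
    (hpq : ∀ m, dist p m + dist m q = dist p q → R ≤ dist (σ 0) m) :
    ∃ P Q m : X, (∃ z, On (σ 0) P n z ∧ dist z (σ (-n)) ≤ 1) ∧
      (∃ z, On (σ 0) Q n z ∧ dist z (σ n) ≤ 1) ∧ m ∈ Sg P Q ∧ dist (σ 0) m = R ∧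
      ∀ m' ∈ Sg P Q, R ≤ dist (σ 0) m' := by
  have hn0 : (0 : ℝ) ≤ n := Nat.cast_nonneg _
  -- the moving end points
  have key : ∀ w : X, (n : ℝ) ≤ dist (σ 0) w → ∃ c : ℝ → X, (∀ l, 0 ≤ l → l ≤ 1 →
      On (σ 0) w ((1 - l) * n + l * dist (σ 0) w) (c l)) := by
    intro w hw
    have h1 : ∀ l : ℝ, ∃ y, 0 ≤ l → l ≤ 1 → On (σ 0) w ((1 - l) * n + l * dist (σ 0) w) y := by
      intro l
      by_cases hl : 0 ≤ l ∧ l ≤ 1
      · obtain ⟨y, hy⟩ := (hS X hX).1 (σ 0) w ((1 - l) * n + l * dist (σ 0) w)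
          (by nlinarith [hl.1, hl.2]) (by nlinarith [hl.1, hl.2])
        exact ⟨y, fun _ _ => hy⟩
      · exact ⟨w, fun h1 h2 => absurd ⟨h1, h2⟩ hl⟩
    choose c hc using h1
    exact ⟨c, hc⟩
  obtain ⟨P, hP⟩ := key p hp
  obtain ⟨Q, hQ⟩ := key q hq
  obtain ⟨f, hf⟩ : ∃ f : ℝ → ℝ, ∀ l, f l = infDist (σ 0) (Sg (P l) (Q l)) := ⟨_, fun l => rfl⟩
  obtain ⟨B, hB⟩ : ∃ B : ℝ, B = dist (σ 0) p + dist (σ 0) q := ⟨_, rfl⟩
  have hB0 : 0 ≤ B := by rw [hB]; positivity
  have hlip : ∀ l ∈ Icc (0 : ℝ) 1, ∀ l' ∈ Icc (0 : ℝ) 1, f l' ≤ f l + B * |l - l'| := by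
    rintro l ⟨hl0, hl1⟩ l' ⟨hl0', hl1'⟩
    rw [hf, hf]
    have hd : ∀ (w : X) (c : ℝ → X), (n : ℝ) ≤ dist (σ 0) w → dist (σ 0) w ≤ B →
        (∀ l, 0 ≤ l → l ≤ 1 → On (σ 0) w ((1 - l) * n + l * dist (σ 0) w) (c l)) →
        dist (c l) (c l') ≤ B * |l - l'| := by
      intro w c hw hwB hc
      rw [on_dist hS hX (hc l hl0 hl1) (hc l' hl0' hl1')]
      have e1 : (1 - l) * n + l * dist (σ 0) w - ((1 - l') * n + l' * dist (σ 0) w) =
          (dist (σ 0) w - n) * (l - l') := by ring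
      rw [e1, abs_mul, abs_of_nonneg (by linarith)]
      exact mul_le_mul_of_nonneg_right (by linarith) (abs_nonneg _)
    have n1 : 0 ≤ dist (σ 0) p := dist_nonneg
    have n2 : 0 ≤ dist (σ 0) q := dist_nonneg
    exact inf_close hS hC hX (σ 0) (hd p P hp (by linarith) hP) (hd q Q hq (by linarith) hQ)
  have hcont : ContinuousOn f (Icc 0 1) := by
    refine (LipschitzOnWith.of_dist_le_mul (K := ⟨B, hB0⟩) ?_).continuousOn
    intro l hl l' hl'
    rw [Real.dist_eq, Real.dist_eq]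
    show |f l - f l'| ≤ B * |l - l'|
    have h1 := hlip l hl l' hl'
    have h2 := hlip l' hl' l hl
    rw [abs_sub_comm l' l] at h2
    rw [abs_le]
    constructor <;> linarith
  have h0 : f 0 ≤ R := by
    rw [hf]
    have z1 : (0 : ℝ) ∈ Icc (0 : ℝ) 1 := by simp
    have e1 : dist (P 0) (σ (-n)) ≤ 1 := by
      refine hpn _ ?_
      have := hP 0 le_rfl zero_le_one
      simpa using this
    have e2 : dist (Q 0) (σ n) ≤ 1 := by
      refine hqn _ ?_
      have := hQ 0 le_rfl zero_le_one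
      simpa using this
    have e3 : σ 0 ∈ Sg (σ (-n)) (σ n) := by
      show dist (σ (-n)) (σ 0) + dist (σ 0) (σ n) = dist (σ (-n)) (σ n)
      rw [hσ.dist_eq, hσ.dist_eq, hσ.dist_eq, Real.dist_eq, Real.dist_eq, Real.dist_eq,
        abs_of_nonpos (by linarith), abs_of_nonpos (by linarith), abs_of_nonpos (by linarith)]
      ring
    obtain ⟨m', hm', hd⟩ := seg_close hS hC hX (p' := P 0) (q' := Q 0) (ε := 1)
      (by rw [dist_comm]; exact e1) (by rw [dist_comm]; exact e2) e3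
    have := infDist_le_dist_of_mem (x := σ 0) hm'
    linarith
  have h1 : R ≤ f 1 := by
    rw [hf]
    have e1 : P 1 = p := by
      have := hP 1 zero_le_one le_rfl
      have h2 := this.2
      simp only [sub_self, zero_mul, one_mul, zero_add] at h2
      exact dist_eq_zero.1 h2
    have e2 : Q 1 = q := by
      have := hQ 1 zero_le_one le_rfl
      have h2 := this.2
      simp only [sub_self, zero_mul, one_mul, zero_add] at h2
      exact dist_eq_zero.1 h2
    rw [e1, e2, le_infDist ⟨p, left_sg p q⟩]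
    intro m hm
    exact hpq m hm
  obtain ⟨l, ⟨hl0, hl1⟩, hl⟩ := intermediate_value_Icc zero_le_one hcont ⟨h0, h1⟩
  obtain ⟨m, hm, hmd⟩ := (sg_compact (P l) (Q l)).exists_infDist_eq_dist ⟨P l, left_sg _ _⟩ (σ 0)
  rw [← hf, hl] at hmd
  refine ⟨P l, Q l, m, ?_, ?_, hm, hmd.symm, ?_⟩
  · obtain ⟨z, hz⟩ := (hS X hX).1 (σ 0) p n hn0 hp
    refine ⟨z, ?_, hpn z hz⟩
    exact on_restrict hS hX hz (hP l hl0 hl1) (by nlinarith)
  · obtain ⟨z, hz⟩ := (hS X hX).1 (σ 0) q n hn0 hq
    refine ⟨z, ?_, hqn z hz⟩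
    exact on_restrict hS hX hz (hQ l hl0 hl1) (by nlinarith)
  · intro m' hm'
    rw [← hl, hf]
    exact infDist_le_dist_of_mem hm'

/-- one half of the segment is near the line -/
theorem half_near (hS : S_STEW.{u}) (hC : S_CMP.{u}) (hX : CN X) (σ : ℝ → X) (hσ : Isometry σ)
    {R : ℝ} (hR : 0 ≤ R) {n : ℕ} (hn : 0 < n) {Q m : X}
    (hQ : ∃ z, On (σ 0) Q n z ∧ dist z (σ n) ≤ 1) (hm : dist (σ 0) m = R) {t : ℝ} (ht : 0 ≤ t)
    (htn : t ≤ n) {a : X} (ha : On m Q t a) : dist a (σ t) ≤ 2 * R + 1 := by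
  have hn0 : (0 : ℝ) < n := by exact_mod_cast hn
  obtain ⟨z, hz1, hz2⟩ := hQ
  have hQn : (n : ℝ) ≤ dist (σ 0) Q := on_le hz1
  -- the point on `[o, Q]`
  obtain ⟨y, hy⟩ := (hS X hX).1 (σ 0) Q t ht (htn.trans hQn)
  have hy1 : On (σ 0) z t y := on_restrict hS hX hy hz1 htn
  have hσn : dist (σ 0) (σ n) = n := by
    rw [hσ.dist_eq, Real.dist_eq, zero_sub, abs_neg, abs_of_pos hn0]
  have hσt : On (σ 0) (σ n) t (σ t) := by
    refine ⟨?_, ?_⟩
    · rw [hσ.dist_eq, Real.dist_eq, zero_sub, abs_neg, abs_of_nonneg ht]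
    · rw [hσn, hσ.dist_eq, Real.dist_eq, abs_of_nonpos (by linarith)]
      ring
  have e1 : t / n * dist (σ 0) z = t := by
    rw [hz1.1]
    field_simp
  have e2 : t / n * dist (σ 0) (σ n) = t := by
    rw [hσn]
    field_simp
  have htn0 : 0 ≤ t / n := by positivity
  have htn1 : t / n ≤ 1 := by rw [div_le_one hn0]; exact htn
  have h1 := (hC X hX).2 (σ 0) z (σ 0) (σ n) (t / n) y (σ t) (by rw [e1]; exact hy1)
    (by rw [e2]; exact hσt) htn0 htn1
  rw [dist_self, mul_zero, zero_add] at h1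
  have h2 : dist y (σ t) ≤ 1 := by
    refine h1.trans ?_
    have : 0 ≤ dist z (σ n) := dist_nonneg
    nlinarith
  -- comparison with `[m, Q]`
  have hmQ : t ≤ dist m Q := on_le ha
  have n0 : 0 ≤ dist m Q := dist_nonneg
  rcases n0.eq_or_lt with h0 | h0
  · have ht0 : t = 0 := by linarith
    have ham : a = m := by
      have := ha.1
      rw [ht0] at this
      exact (dist_eq_zero.1 this).symm
    rw [ham, ht0, dist_comm, hm]
    linarith
  · have hl0 : 0 ≤ t / dist m Q := by positivity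
    have hl1 : t / dist m Q ≤ 1 := by rw [div_le_one h0]; exact hmQ
    have n3 : 0 ≤ dist (σ 0) Q := dist_nonneg
    obtain ⟨c, hc⟩ := (hS X hX).1 (σ 0) Q (t / dist m Q * dist (σ 0) Q) (by positivity)
      (by nlinarith)
    have e3 : t / dist m Q * dist m Q = t := by field_simp
    have h3 := (hC X hX).2 m Q (σ 0) Q (t / dist m Q) a c (by rw [e3]; exact ha) hc hl0 hl1
    rw [dist_self, mul_zero, add_zero, dist_comm m (σ 0), hm] at h3
    have h4 : dist a c ≤ R := by nlinarith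
    have h5 := on_dist hS hX hc hy
    have h6 : |t / dist m Q * dist (σ 0) Q - t| ≤ R := by
      have e4 : t / dist m Q * dist (σ 0) Q - t = t / dist m Q * (dist (σ 0) Q - dist m Q) := by
        rw [mul_sub, e3]
      rw [e4, abs_mul, abs_of_nonneg hl0]
      have h7 : |dist (σ 0) Q - dist m Q| ≤ R := by
        rw [← hm]
        exact abs_dist_sub_le (σ 0) m Q
      calc t / dist m Q * |dist (σ 0) Q - dist m Q| ≤ 1 * R :=
            mul_le_mul hl1 h7 (abs_nonneg _) zero_le_one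
        _ = R := one_mul R
    have t1 := dist_triangle a c (σ t)
    have t2 := dist_triangle c y (σ t)
    linarith

end

/-- Ballmann's lemma -/
theorem far (hS : S_STEW.{u}) (hC : S_CMP.{u}) : S_FAR.{u} := by
  intro X _ _ hX σ hσ R hR hyp
  have hR0 : 0 ≤ R := by linarith
  -- the approximating segments
  have key : ∀ n : ℕ, ∃ T : ℝ → X, 0 < n →
      (∀ t : ℝ, |t| ≤ n - R → R ≤ dist (σ 0) (T t) ∧ dist (T t) (σ t) ≤ 2 * R + 1) ∧
      ∀ s t : ℝ, |s| ≤ n - R → |t| ≤ n - R → dist (T s) (T t) = |s - t| := by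
    intro n
    by_cases hn : 0 < n
    swap
    · exact ⟨σ, fun h => absurd h hn⟩
    obtain ⟨p, q, h1, h2, h3, h4, h5⟩ := hyp n hn
    obtain ⟨P, Q, m, hP, hQ, hm, hmR, hall⟩ := exact_seg hS hC hX σ hσ R hR n hn p q h1 h2 h3 h4 h5
    have hm1 := sg_on hm
    have hmm : dist P m + dist m Q = dist P Q := hm
    have hPn : (n : ℝ) ≤ dist (σ 0) P := by
      obtain ⟨z, hz, _⟩ := hP
      exact on_le hz
    have hQn : (n : ℝ) ≤ dist (σ 0) Q := by
      obtain ⟨z, hz, _⟩ := hQ
      exact on_le hz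
    have hmP : n - R ≤ dist P m := by
      have := dist_triangle (σ 0) m P
      rw [hmR, dist_comm m P] at this
      linarith
    have hmQ : n - R ≤ dist m Q := by
      have := dist_triangle (σ 0) m Q
      rw [hmR] at this
      linarith
    have hT : ∀ t : ℝ, ∃ y, |t| ≤ n - R → On P Q (dist P m + t) y := by
      intro t
      by_cases ht : |t| ≤ n - R
      · rw [abs_le] at ht
        obtain ⟨y, hy⟩ := (hS X hX).1 P Q (dist P m + t) (by linarith) (by linarith)
        exact ⟨y, fun _ => hy⟩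
      · exact ⟨P, fun h => absurd h ht⟩
    choose T hT using hT
    refine ⟨T, fun _ => ⟨?_, ?_⟩⟩
    · intro t ht
      have hTt := hT t ht
      refine ⟨hall _ (on_sg hTt), ?_⟩
      rw [abs_le] at ht
      have hdm := on_dist hS hX hTt hm1
      rw [add_sub_cancel_left] at hdm
      rcases le_total 0 t with h0 | h0
      · rw [abs_of_nonneg h0] at hdm
        refine half_near hS hC hX σ hσ hR0 hn hQ hmR h0 (by linarith) (a := T t) ?_
        refine ⟨by rw [dist_comm, hdm], ?_⟩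
        rw [hTt.2]
        linarith
      · rw [abs_of_nonpos h0] at hdm
        have hσ' : Isometry (fun t => σ (-t)) := by
          refine Isometry.of_dist_eq fun s t => ?_
          rw [hσ.dist_eq, Real.dist_eq, Real.dist_eq, neg_sub_neg, abs_sub_comm]
        have h6 := half_near hS hC hX (fun t => σ (-t)) hσ' (R := R) hR0 hn (Q := P) (m := m)
          (by simpa using hP) (by simpa using hmR) (t := -t) (by linarith) (by linarith)
          (a := T t) (by
            refine ⟨by rw [dist_comm, hdm], ?_⟩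
            rw [dist_comm (T t) P, hTt.1, dist_comm m P]
            ring)
        simpa using h6
    · intro s t hs ht
      rw [on_dist hS hX (hT s hs) (hT t ht)]
      congr 1
      ring
  choose T hT using key
  -- the limit
  have hev : ∀ t : ℝ, ∀ᶠ n : ℕ in (hyperfilter ℕ : Filter ℕ), 0 < n ∧ |t| ≤ (n : ℝ) - R := by
    intro t
    have h1 : ∀ᶠ n : ℕ in atTop, 0 < n ∧ |t| ≤ (n : ℝ) - R := by
      obtain ⟨N, hN⟩ := exists_nat_ge (|t| + R)
      filter_upwards [eventually_ge_atTop (N + 1)] with n hn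
      have h2 : ((N + 1 : ℕ) : ℝ) ≤ n := by exact_mod_cast hn
      push_cast at h2
      exact ⟨by omega, by linarith⟩
    exact h1.filter_mono Nat.hyperfilter_le_atTop
  have hlim : ∀ t : ℝ, ∃ x : X, Tendsto (fun n => T n t) (hyperfilter ℕ : Filter ℕ) (𝓝 x) := by
    intro t
    have hc : IsCompact (closedBall (σ t) (2 * R + 1)) := isCompact_closedBall _ _
    obtain ⟨x, -, hx⟩ := hc.ultrafilter_le_nhds ((hyperfilter ℕ).map (fun n => T n t)) (by
      rw [le_principal_iff]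
      show ∀ᶠ n in (hyperfilter ℕ : Filter ℕ), T n t ∈ closedBall (σ t) (2 * R + 1)
      filter_upwards [hev t] with n hn
      exact mem_closedBall.2 ((hT n hn.1).1 t hn.2).2)
    exact ⟨x, hx⟩
  choose τ hτ using hlim
  refine ⟨τ, ?_, ⟨2 * R + 1, fun t => ?_⟩, ?_⟩
  · refine Isometry.of_dist_eq fun s t => ?_
    have h1 : Tendsto (fun n => dist (T n s) (T n t)) (hyperfilter ℕ : Filter ℕ)
        (𝓝 (dist (τ s) (τ t))) := (hτ s).dist (hτ t)
    have h2 : Tendsto (fun n => dist (T n s) (T n t)) (hyperfilter ℕ : Filter ℕ)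
        (𝓝 |s - t|) := by
      refine tendsto_const_nhds.congr' ?_
      filter_upwards [hev s, hev t] with n hns hnt
      exact ((hT n hns.1).2 s t hns.2 hnt.2).symm
    rw [Real.dist_eq]
    exact tendsto_nhds_unique h1 h2
  · have h1 : Tendsto (fun n => dist (σ t) (T n t)) (hyperfilter ℕ : Filter ℕ)
        (𝓝 (dist (σ t) (τ t))) := tendsto_const_nhds.dist (hτ t)
    refine le_of_tendsto h1 ?_
    filter_upwards [hev t] with n hn
    rw [dist_comm]
    exact ((hT n hn.1).1 t hn.2).2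
  · unfold DD
    rw [le_infDist (range_nonempty τ)]
    rintro _ ⟨t, rfl⟩
    have h1 : Tendsto (fun n => dist (σ 0) (T n t)) (hyperfilter ℕ : Filter ℕ)
        (𝓝 (dist (σ 0) (τ t))) := tendsto_const_nhds.dist (hτ t)
    refine ge_of_tendsto h1 ?_
    filter_upwards [hev t] with n hn
    exact ((hT n hn.1).1 t hn.2).1

end Pool.Agent.Y901.EL
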